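import Pool.Agent.H29.T1.ZS
import Pool.Agent.H43.T1.INOK
import Pool.Agent.H8.TOW.TYI

/-!
# T1T, module ZTYI: the type does not depend on the completion
-/

set_option autoImplicit false
set_option linter.unusedSectionVars false

namespace Pool.T1.ZTYI51

open Polynomial Pool.HYP Pool.TOW Pool.AVS IsDedekindDomain Pool.TOW.TYI8

section Two

variable {R : Type} [CommRing R] [IsDedekindDomain R] {K : Type} [Field K] [Algebra R K]
  [IsFractionRing R K] {P : HeightOneSpectrum R} {ϖ : R}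
  {L : Type} [Field L] {O : ValuationSubring L}
  {ι : K →+* L} {L' : Type} [Field L'] {O' : ValuationSubring L'}
  {ι' : K →+* L'}

theorem intg (h : CompP P ϖ L O ι) (h' : CompP P ϖ L' O' ι') {y : K} (hy : ι y ∈ O) :
    ι' y ∈ O' := by
  obtain ⟨b, a, hb, hab⟩ := INOK43.frac h hy
  obtain ⟨h0, h1⟩ := INOK43.unit_of h' hb
  have e : ι' y = ι' (algebraMap R K a) * (ι' (algebraMap R K b))⁻¹ := by
    rw [← hab, map_mul]
    field_simp
  rw [e]
  exact mul_mem (h'.int a) h1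

theorem tr (h : CompP P ϖ L O ι) (h' : CompP P ϖ L' O' ι')
    (y : K) (N : ℕ) (hy : ι y / ι (algebraMap R K ϖ) ^ N ∈ O) : ι' y / ι' (algebraMap R K ϖ) ^ N ∈ O' := by
  rw [← map_pow, ← map_div₀] at hy ⊢
  exact intg h h' hy

/-- Being a square in the completion does not depend on the completion. -/
theorem sq_tr (h : CompP P ϖ L O ι) (h' : CompP P ϖ L' O' ι')
    (z : K) (hz : IsSquare (ι z)) : IsSquare (ι' z) := by
  by_cases hz0 : z = 0
  · rw [hz0, map_zero]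
    exact ⟨0, by ring⟩
  obtain ⟨y, hy⟩ := hz
  have hιz : ι z ≠ 0 := by
    rw [Ne, map_eq_zero]
    exact hz0
  have hy0 : y ≠ 0 := by
    rintro rfl
    exact hιz (by rw [hy, mul_zero])
  obtain ⟨M, hM⟩ := ex_M h.loc hy0
  obtain ⟨w, hw⟩ := h.cpl.dense y (ι (algebraMap R K ϖ) ^ (M + 1)) (pow_ne_zero _ h.loc.pi_ne)
  have hp := h.loc.pi_ne
  have hp' := h'.loc.pi_ne
  -- `w ^ 2 / z` is close to `1`
  have h1 : (ι w / y - 1) / ι (algebraMap R K ϖ) ∈ O := by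
    have h2 : (ι w / y - 1) / ι (algebraMap R K ϖ) =
        -((y - ι w) / ι (algebraMap R K ϖ) ^ (M + 1) * (y⁻¹ * ι (algebraMap R K ϖ) ^ M)) := by
      field_simp
      ring
    rw [h2]
    exact neg_mem (mul_mem hw hM)
  have h1' : ι w / y - 1 ∈ O := by
    have h2 : ι w / y - 1 = (ι w / y - 1) / ι (algebraMap R K ϖ) * ι (algebraMap R K ϖ) :=
      (div_mul_cancel₀ _ hp).symm
    rw [h2]
    exact mul_mem h1 h.loc.pi_mem
  have h3 : (ι (w ^ 2 / z) - 1) / ι (algebraMap R K ϖ) ∈ O := by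
    have h4 : ι (w ^ 2 / z) = (ι w / y) ^ 2 := by
      rw [map_div₀, map_pow, hy, div_pow]
      ring
    have h5 : (ι (w ^ 2 / z) - 1) / ι (algebraMap R K ϖ) =
        (ι w / y - 1) / ι (algebraMap R K ϖ) * ((ι w / y - 1) + 2) := by
      rw [h4]
      ring
    rw [h5]
    have h6 : (2 : L) ∈ O := by
      have h7 : (2 : L) = 1 + 1 := by norm_num
      rw [h7]
      exact add_mem (one_mem O) (one_mem O)
    exact mul_mem h1 (add_mem h1' h6)
  have h4 : (ι' (w ^ 2 / z) - 1) / ι' (algebraMap R K ϖ) ∈ O' := by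
    have h5 := tr h h' (w ^ 2 / z - 1) 1 (by
      rw [pow_one, map_sub, map_one]
      exact h3)
    rwa [pow_one, map_sub, map_one] at h5
  have h5 := sq_near h'.loc h4
  have h6 : ι' (w ^ 2 / z) ≠ 0 := by
    intro h0
    rw [h0] at h4
    apply LocB.pi_inv h'.loc
    have h7 : (ι' (algebraMap R K ϖ))⁻¹ = -((0 - 1) / ι' (algebraMap R K ϖ)) := by
      ring
    rw [h7]
    exact neg_mem h4
  have h7 : w ≠ 0 := by
    rintro rfl
    apply h6
    rw [zero_pow two_ne_zero, zero_div, map_zero]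
  have h8 : ι' z = (ι' w) ^ 2 * (ι' (w ^ 2 / z))⁻¹ := by
    rw [← map_pow, ← map_inv₀, ← map_mul]
    congr 1
    field_simp
  rw [h8]
  exact (IsSquare.sq _).mul h5.inv

/-- A common approximation of the roots of `f`. -/
theorem near (h : CompP P ϖ L O ι) (h' : CompP P ϖ L' O' ι')
    {g : ℕ} (hg : 1 ≤ g) (f : K[X]) (c : O) (γ : O[X]) (c' : O') (γ' : O'[X])
    (hγ' : OkL O' g γ')
    (hf : f.map ι = oL O ((X - C c) * γ)) (hf' : f.map ι' = oL O' ((X - C c') * γ')) (N : ℕ) :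
    ∃ x : K, ((c : L) - ι x) / ι (algebraMap R K ϖ) ^ N ∈ O ∧
      ((c' : L') - ι' x) / ι' (algebraMap R K ϖ) ^ N ∈ O' := by
  obtain ⟨x, hx⟩ := h.cpl.dense c (ι (algebraMap R K ϖ) ^ N) (pow_ne_zero _ h.loc.pi_ne)
  have hp := h.loc.pi_ne
  have hp' := h'.loc.pi_ne
  refine ⟨x, hx, ?_⟩
  have hxO : ι x ∈ O := by
    have h1 : ι x = c - ((c : L) - ι x) / ι (algebraMap R K ϖ) ^ N * ι (algebraMap R K ϖ) ^ N := by
      field_simp
      ring
    rw [h1]
    exact sub_mem c.2 (mul_mem hx (pow_mem h.loc.pi_mem N))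
  have hxO' : ι' x ∈ O' := by
    exact intg h h' hxO
  have h1 : ι (f.eval x) = (ι x - c) * ((γ.eval (⟨ι x, hxO⟩ : O) : O) : L) := by
    have h2 : (f.map ι).eval (ι x) = ι (f.eval x) := Polynomial.eval_map_apply ι x
    have h3 := TyZ.ev O (⟨ι x, hxO⟩ : O) γ
    rw [← h2, hf, TyZ.oL_lin, eval_mul, eval_sub, eval_X, eval_C, ← h3]
  have h1' : ι' (f.eval x) = (ι' x - c') * ((γ'.eval (⟨ι' x, hxO'⟩ : O') : O') : L') := by
    have h2 : (f.map ι').eval (ι' x) = ι' (f.eval x) := Polynomial.eval_map_apply ι' x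
    have h3 := TyZ.ev O' (⟨ι' x, hxO'⟩ : O') γ'
    rw [← h2, hf', TyZ.oL_lin, eval_mul, eval_sub, eval_X, eval_C, ← h3]
  have h2 : ι (f.eval x) / ι (algebraMap R K ϖ) ^ N ∈ O := by
    have h3 : ι (f.eval x) / ι (algebraMap R K ϖ) ^ N =
        -(((c : L) - ι x) / ι (algebraMap R K ϖ) ^ N * ((γ.eval (⟨ι x, hxO⟩ : O) : O) : L)) := by
      rw [h1]
      ring
    rw [h3]
    exact neg_mem (mul_mem hx (SetLike.coe_mem _))
  have h3 := tr h h' _ N h2
  obtain ⟨u, hu⟩ := TyZ.unit_ev O' hg hγ' (⟨ι' x, hxO'⟩ : O')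
  have h4 : ((γ'.eval (⟨ι' x, hxO'⟩ : O') : O') : L') * (((u⁻¹ : O'ˣ) : O') : L') = 1 := by
    have h5 := congrArg (Subtype.val) u.mul_inv
    rw [hu] at h5
    exact h5
  have h5 : ((c' : L') - ι' x) / ι' (algebraMap R K ϖ) ^ N =
      -(ι' (f.eval x) / ι' (algebraMap R K ϖ) ^ N * (((u⁻¹ : O'ˣ) : O') : L')) := by
    rw [h1']
    linear_combination (-((c' : L') - ι' x) / ι' (algebraMap R K ϖ) ^ N) * h4
  rw [h5]
  exact neg_mem (mul_mem h3 (SetLike.coe_mem _))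

theorem half (h : CompP P ϖ L O ι) (h' : CompP P ϖ L' O' ι')
    {g : ℕ} (hg : 1 ≤ g) (f : K[X]) (c : O) (γ : O[X]) (c' : O') (γ' : O'[X])
    (hγ' : OkL O' g γ')
    (hf : f.map ι = oL O ((X - C c) * γ)) (hf' : f.map ι' = oL O' ((X - C c') * γ'))
    (z : K[X]) (hz : (z.map ι).eval (c : L) ≠ 0) (hz' : (z.map ι').eval (c' : L') ≠ 0)
    (hs : IsSquare ((z.map ι).eval (c : L))) : IsSquare ((z.map ι').eval (c' : L')) := by
  obtain ⟨M, hM⟩ := ev_const h.loc (z.map ι) c hz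
  obtain ⟨M', hM'⟩ := ev_const h'.loc (z.map ι') c' hz'
  obtain ⟨x, hx, hx'⟩ := near h h' hg f c γ c' γ' hγ' hf hf' (max M M')
  rw [hM' _ (le_max_right _ _) _ hx', Polynomial.eval_map_apply]
  apply sq_tr h h'
  rw [← Polynomial.eval_map_apply, ← hM _ (le_max_left _ _) _ hx]
  exact hs

/-- The value of the class at the root. -/
theorem val (f α : K[X]) (c : O) (γ : O[X])
    (hf : f.map ι = oL O ((X - C c) * γ)) (n : ℕ) :
    ((α * (derivative f) ^ n).map ι).eval (c : L) =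
      (α.map ι).eval (c : L) * ((oL O γ).eval (c : L)) ^ n := by
  rw [Polynomial.map_mul, Polynomial.map_pow, eval_mul, eval_pow, ← Polynomial.derivative_map, hf,
    TyZ.oL_lin, derivative_mul, derivative_X_sub_C]
  simp

/-- The value of the class at the root is not zero. -/
theorem val_ne {g : ℕ} (hg : 1 ≤ g) (f α : K[X]) (c : O) (γ : O[X]) (hγ : OkL O g γ)
    (hα : IsCoprime α f) (hf : f.map ι = oL O ((X - C c) * γ)) (n : ℕ) :
    ((α * (derivative f) ^ n).map ι).eval (c : L) ≠ 0 := by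
  rw [val f α c γ hf n]
  refine mul_ne_zero ?_ (pow_ne_zero _ ?_)
  · intro h0
    have h1 : IsCoprime (α.map ι) (f.map ι) := hα.map (mapRingHom ι)
    rw [hf, TyZ.oL_lin] at h1
    have h2 := h1.of_mul_right_left
    have h3 : (X - C (c : L)) ∣ α.map ι := dvd_iff_isRoot.2 h0
    exact (irreducible_X_sub_C (c : L)).not_isUnit (h2.isUnit_of_dvd' h3 dvd_rfl)
  · intro h0
    rw [TyZ.ev] at h0
    have h1 := TyZ.unit_ev O hg hγ c
    have h2 : γ.eval c = 0 := Subtype.ext h0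
    rw [h2] at h1
    exact not_isUnit_zero h1

/-- The first component of the type. -/
theorem fst {g : ℕ} (hg : 1 ≤ g) (f : R[X])
    (hf : f.Monic) (h : CompP P ϖ L O ι) (c : O) (γ : O[X]) (hγ : OkL O g γ)
    (hfc : (fk K f).map ι = oL O ((X - C c) * γ)) (α : K[X]) (x : Ty)
    (hα : IsCoprime α (fk K f)) (hN : NSq (fk K f) α) (hx : TyL O (ι (algebraMap R K ϖ)) c γ x (α.map ι)) :
    US P.asIdeal f α ↔ x.1 = 0 := by
  obtain ⟨fO, -, -, hfO, -, -, -, hU, -⟩ := Pool.T1.inok R K P ϖ L O ι h f hf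
  have h1 : fO = (X - C c) * γ := HYP59.oL_inj (hfO.trans hfc)
  rw [← hU α hα, h1]
  have h2 : IsCoprime (α.map ι) (oL O ((X - C c) * γ)) := by
    rw [← hfc]
    exact hα.map (mapRingHom ι)
  have h3 : NSq (oL O ((X - C c) * γ)) (α.map ι) := by
    rw [← hfc, NSq, nmu.2.2.2 (K) L ι (fk K f) α (hf.map _)]
    exact hN.map ι
  exact tyu unr nmu L O (ι (algebraMap R K ϖ)) h.loc g c γ hg hγ (α.map ι) x h2 h3 hx

end Two

end Pool.T1.ZTYI51

namespace Pool.T1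

open Polynomial Pool.HYP Pool.TOW Pool.AVS IsDedekindDomain

/-- Row ZTYI. -/
theorem ztyi : ZTYIStmt := by
  intro R _ _ K _ _ _ _ _ _ g P ϖ hg f hf _ L _ O ι h L' _ O' ι' h' c γ c' γ' hγ hγ' hfc hfc'
    α x x' hα hN hx hx'
  have hz : ∀ a b : ZMod 2, (a = 0 ↔ b = 0) → a = b := by decide
  have h1 : x.1 = x'.1 := by
    apply hz
    rw [← ZTYI51.fst hg f hf h c γ hγ hfc α x hα hN hx,
      ← ZTYI51.fst hg f hf h' c' γ' hγ' hfc' α x' hα hN hx']
  obtain ⟨_, _, _, _, _, hs⟩ := hx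
  obtain ⟨_, _, _, _, _, hs'⟩ := hx'
  have h2 : x.2 = x'.2 := by
    apply hz
    rw [hs, hs', ← h1, ← ZTYI51.val (fk K f) α c γ hfc, ← ZTYI51.val (fk K f) α c' γ' hfc']
    constructor
    · exact ZTYI51.half h h' hg (fk K f) c γ c' γ' hγ' hfc hfc' _
        (ZTYI51.val_ne hg (fk K f) α c γ hγ hα hfc _)
        (ZTYI51.val_ne hg (fk K f) α c' γ' hγ' hα hfc' _)
    · exact ZTYI51.half h' h hg (fk K f) c' γ' c γ hγ hfc' hfc _
        (ZTYI51.val_ne hg (fk K f) α c' γ' hγ' hα hfc' _)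
        (ZTYI51.val_ne hg (fk K f) α c γ hγ hα hfc _)
  exact Prod.ext h1 h2

end Pool.T1
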