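import Pool.Agent.H14.T1.S3

/-!
# T1: BDP
-/

set_option autoImplicit false

namespace Pool.T1

open Polynomial Matrix Pool.HYP Pool.TOW Pool.AVS IsDedekindDomain

section

variable {R : Type} [CommRing R] [IsDomain R] {K : Type} [Field K] [Algebra R K]

/-- `RP K P` as a subring. -/
def BDP.rp (K : Type) [Field K] [Algebra R K] (P : HeightOneSpectrum R) : Subring K where
  carrier := RP K P
  mul_mem' := by
    rintro x y ⟨m, hm, a, ha⟩ ⟨m', hm', a', ha'⟩
    refine ⟨m * m', fun h => ?_, a * a', ?_⟩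
    · exact (P.isPrime.mem_or_mem h).elim hm hm'
    · rw [map_mul, map_mul, ← ha, ← ha']; ring
  one_mem' := ⟨1, fun h => P.isPrime.ne_top ((Ideal.eq_top_iff_one _).2 h), 1, by simp⟩
  add_mem' := by
    rintro x y ⟨m, hm, a, ha⟩ ⟨m', hm', a', ha'⟩
    refine ⟨m * m', fun h => ?_, m' * a + m * a', ?_⟩
    · exact (P.isPrime.mem_or_mem h).elim hm hm'
    · rw [map_mul, map_add, map_mul, map_mul, ← ha, ← ha']; ring
  zero_mem' := ⟨1, fun h => P.isPrime.ne_top ((Ideal.eq_top_iff_one _).2 h), 0, by simp⟩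
  neg_mem' := by
    rintro x ⟨m, hm, a, ha⟩
    exact ⟨m, hm, -a, by rw [map_neg, ← ha]; ring⟩

omit [IsDomain R] in
theorem BDP.alg (P : HeightOneSpectrum R) (r : R) : algebraMap R K r ∈ BDP.rp K P :=
  ⟨1, fun h => P.isPrime.ne_top ((Ideal.eq_top_iff_one _).2 h), r, by simp⟩

variable {N : ℕ} (V : Subring K)

/-- Entries in a subring. -/
def BDP.Mi (g : Matrix (Fin N) (Fin N) K) : Prop := ∀ i j, g i j ∈ V

variable {V}

theorem BDP.Mi.mul {g h : Matrix (Fin N) (Fin N) K} (hg : BDP.Mi V g) (hh : BDP.Mi V h) :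
    BDP.Mi V (g * h) := fun i j => by
  rw [Matrix.mul_apply]
  exact V.sum_mem fun k _ => V.mul_mem (hg i k) (hh k j)

theorem BDP.Mi.add {g h : Matrix (Fin N) (Fin N) K} (hg : BDP.Mi V g) (hh : BDP.Mi V h) :
    BDP.Mi V (g + h) := fun i j => V.add_mem (hg i j) (hh i j)

theorem BDP.Mi.tr {g : Matrix (Fin N) (Fin N) K} (hg : BDP.Mi V g) : BDP.Mi V gᵀ :=
  fun i j => hg j i

theorem BDP.Mi.smul {g : Matrix (Fin N) (Fin N) K} {c : K} (hc : c ∈ V) (hg : BDP.Mi V g) :
    BDP.Mi V (c • g) := fun i j => V.mul_mem hc (hg i j)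

theorem BDP.near {A B k h : Matrix (Fin N) (Fin N) K} {b c : K} (hc : c ≠ 0) (hb : b ≠ 0)
    (hcV : c ∈ V) (hbV : b ∈ V) (hk : k.det ≠ 0) (hbB : BDP.Mi V (b • B))
    (h1 : ∀ i j, (kᵀ * A * k - B) i j / c ∈ V)
    (h2 : ∀ i j, (k⁻¹ * h - 1) i j / (c * b) ∈ V) :
    ∀ i j, (hᵀ * A * h - B) i j / c ∈ V := by
  set D : Matrix (Fin N) (Fin N) K := c⁻¹ • (kᵀ * A * k - B) with hD
  set E : Matrix (Fin N) (Fin N) K := (c * b)⁻¹ • (k⁻¹ * h - 1) with hE
  have dD : BDP.Mi V D := fun i j => by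
    have := h1 i j
    rw [div_eq_inv_mul] at this
    exact this
  have dE : BDP.Mi V E := fun i j => by
    have := h2 i j
    rw [div_eq_inv_mul] at this
    exact this
  have e1 : kᵀ * A * k = B + c • D := by
    rw [hD, smul_smul, mul_inv_cancel₀ hc, one_smul]
    abel
  have e2 : h = k * (1 + (c * b) • E) := by
    rw [hE, smul_smul, mul_inv_cancel₀ (mul_ne_zero hc hb), one_smul, add_sub_cancel,
      ← Matrix.mul_assoc, Matrix.mul_nonsing_inv k (isUnit_iff_ne_zero.2 hk), Matrix.one_mul]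
  have e3 : hᵀ * A * h - B = c • (D + (c * b) • (Eᵀ * D + D * E) +
      ((c * b) * (c * b)) • (Eᵀ * D * E) + (Eᵀ * (b • B) + (b • B) * E) +
      (c * b) • (Eᵀ * (b • B) * E)) := by
    have : hᵀ * A * h = (1 + (c * b) • E)ᵀ * (kᵀ * A * k) * (1 + (c * b) • E) := by
      conv_lhs => rw [e2, Matrix.transpose_mul]
      simp only [Matrix.mul_assoc]
    rw [this, e1]
    simp only [Matrix.transpose_add, Matrix.transpose_one, Matrix.transpose_smul,
      Matrix.add_mul, Matrix.mul_add, Matrix.one_mul, Matrix.mul_one, Matrix.smul_mul,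
      Matrix.mul_smul, smul_add, smul_smul]
    module
  have mem : BDP.Mi V (D + (c * b) • (Eᵀ * D + D * E) +
      ((c * b) * (c * b)) • (Eᵀ * D * E) + (Eᵀ * (b • B) + (b • B) * E) +
      (c * b) • (Eᵀ * (b • B) * E)) := by
    have hcb := V.mul_mem hcV hbV
    exact ((((dD.add (((dE.tr.mul dD).add (dD.mul dE)).smul hcb)).add
      (((dE.tr.mul dD).mul dE).smul (V.mul_mem hcb hcb))).add
      ((dE.tr.mul hbB).add (hbB.mul dE))).add (((dE.tr.mul hbB).mul dE).smul hcb))
  intro i j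
  rw [e3, Matrix.smul_apply, smul_eq_mul, mul_div_cancel_left₀ _ hc]
  exact mem i j

end

/-- Row BDP. -/
theorem bdp (H : HYBStmt) (I : IPVStmt) (T : TRFStmt) (W : WAPStmt) (SA : SEMAStmt)
    (SB : SEMBStmt) : BDPStmt := by
  intro F _ h2 K _ _ _ _ n N ω p hpm hpi A B hA hB hBd hN
  obtain ⟨O, hO, ⟨hU1, hU2, hU3, -⟩, -⟩ := (I F).1 p hpm hpi
  obtain ⟨t1, t2, t3, t4, t5, -⟩ := T (RatFunc F) K n N ω
  have h2' : (2 : RatFunc F) ≠ 0 := by
    intro h
    apply h2
    have : algebraMap F (RatFunc F) 2 = 0 := by rw [map_ofNat]; exact h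
    exact (map_eq_zero _).1 this
  have hBs : (trm ω B)ᵀ = trm ω B := t5 B hB
  have hBdet : (trm ω B).det ≠ 0 := by
    rw [t2]
    exact mul_ne_zero (pow_ne_zero _ t4) (by rw [Ne, Algebra.norm_eq_zero_iff]; exact hBd)
  obtain ⟨a, ha, hyb⟩ := H (RatFunc F) O (Fin N × Fin n) (trm ω B) h2' ⟨rf p, hU1, hU2, hU3⟩
    hBs hBdet
  -- denominators
  obtain ⟨b, hb⟩ := IsLocalization.exist_integer_multiples_of_finite (nonZeroDivisors (RR F K))
    (Sum.elim (fun x : Fin n × Fin n => ω x.1 * ω x.2) (fun x : Fin N × Fin N => B x.1 x.2))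
  have hb0 : algebraMap (RR F K) K (b : RR F K) ≠ 0 :=
    IsFractionRing.to_map_ne_zero_of_mem_nonZeroDivisors b.2
  have hnum : a.num ≠ 0 := RatFunc.num_ne_zero ha
  set c : K := algebraMap (RR F K) K (xR F K a.num * (b : RR F K)) with hc
  have hc' : c = algebraMap (RatFunc F) K (rf a.num) * algebraMap (RR F K) K (b : RR F K) := by
    rw [hc, map_mul]
    rfl
  have hc0 : c ≠ 0 := by
    rw [hc']
    refine mul_ne_zero ?_ hb0
    rw [Ne, map_eq_zero]
    exact RatFunc.algebraMap_ne_zero hnum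
  choose! k hk1 hk2 using fun P (hP : Abv p P) => hN P hP c hc0
  have hfin := (SA F K).1 p hpi.ne_zero
  obtain ⟨h, hh1, hh2⟩ := (W (RR F K) K hfin.toFinset (c * algebraMap (RR F K) K (b : RR F K))
    (mul_ne_zero hc0 hb0)).2 N k (fun P hP => hk1 P (hfin.mem_toFinset.1 hP))
  have key : ∀ P : HeightOneSpectrum (RR F K), Abv p P →
      ∀ i j, (hᵀ * A * h - B) i j / c ∈ BDP.rp K P := by
    intro P hP
    refine BDP.near (b := algebraMap (RR F K) K (b : RR F K)) hc0 hb0 ?_ (BDP.alg P _)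
      (hk1 P hP) ?_ (hk2 P hP) (hh2 P (hfin.mem_toFinset.2 hP))
    · rw [hc]
      exact BDP.alg P _
    · intro i j
      obtain ⟨r, hr⟩ := hb (Sum.inr (i, j))
      rw [Matrix.smul_apply, smul_eq_mul]
      have : algebraMap (RR F K) K (b : RR F K) * B i j = algebraMap (RR F K) K r := by
        rw [hr, Sum.elim_inr, Algebra.smul_def]
      rw [this]
      exact BDP.alg P _
  obtain ⟨g, hg1, hg2⟩ := hyb (trm ω (hᵀ * A * h)) (t5 _ (by
    rw [Matrix.transpose_mul, Matrix.transpose_mul, Matrix.transpose_transpose, hA,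
      Matrix.mul_assoc])) (by
    intro x y
    have e1 : (trm ω (hᵀ * A * h) x y - trm ω B x y) = Algebra.trace (RatFunc F) K
        (ω x.2 * ω y.2 * (hᵀ * A * h - B) x.1 y.1) := by
      simp only [trm, Matrix.of_apply, Matrix.sub_apply, mul_sub, map_sub]
    obtain ⟨r, hr⟩ := hb (Sum.inl (x.2, y.2))
    have e0 : algebraMap (RR F K) K r =
        algebraMap (RR F K) K (b : RR F K) * (ω x.2 * ω y.2) := by
      rw [hr, Sum.elim_inl, Algebra.smul_def]
    have e2 : ω x.2 * ω y.2 * (hᵀ * A * h - B) x.1 y.1 = rf a.num •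
        (algebraMap (RR F K) K r * ((hᵀ * A * h - B) x.1 y.1 / c)) := by
      rw [Algebra.smul_def, e0, hc']
      have h0 : algebraMap (RatFunc F) K (rf a.num) ≠ 0 := by
        rw [Ne, map_eq_zero]
        exact RatFunc.algebraMap_ne_zero hnum
      field_simp
    have m1 : algebraMap (RR F K) K r * ((hᵀ * A * h - B) x.1 y.1 / c) ∈
        IS (F := F) K p := fun P hP =>
      (BDP.rp K P).mul_mem (BDP.alg P r) (key P hP x.1 y.1)
    have m2 := ((SB F K p hpm hpi _ m1).2).1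
    have m3 : rf a.denom ∈ O := by
      have : rf a.denom ∈ (O : Set (RatFunc F)) := by
        rw [hO]
        show ¬ p ∣ (rf a.denom).denom
        rw [RatFunc.denom_algebraMap]
        exact fun h => hpi.not_isUnit (isUnit_of_dvd_one h)
      exact this
    have m4 : Algebra.trace (RatFunc F) K
        (algebraMap (RR F K) K r * ((hᵀ * A * h - B) x.1 y.1 / c)) ∈ O := by
      rw [← hO] at m2
      exact m2
    have e3 : (trm ω (hᵀ * A * h) x y - trm ω B x y) / a = rf a.denom *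
        Algebra.trace (RatFunc F) K
          (algebraMap (RR F K) K r * ((hᵀ * A * h - B) x.1 y.1 / c)) := by
      rw [e1, e2, map_smul, smul_eq_mul]
      have hd : rf a.denom ≠ 0 := RatFunc.algebraMap_ne_zero a.denom_ne_zero
      have hn : rf a.num = a * rf a.denom := by
        have := RatFunc.num_div_denom a
        rw [div_eq_iff hd] at this
        exact this
      rw [hn]
      field_simp
    rw [e3]
    exact O.mul_mem _ _ m3 m4)
  rw [hO] at hg2
  refine ⟨Matrix.fromBlocks (lmm ω h) 0 0 1 * g, ?_, ?_⟩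
  · rw [Matrix.det_mul, Matrix.det_fromBlocks_zero₂₁, Matrix.det_one, mul_one, t3]
    exact mul_ne_zero (by rw [Ne, Algebra.norm_eq_zero_iff]; exact hh1) hg1
  · have e : (Matrix.fromBlocks (lmm ω h) 0 0 1 * g)ᵀ *
        Matrix.fromBlocks (trm ω A) 0 0 (-trm ω B) * (Matrix.fromBlocks (lmm ω h) 0 0 1 * g) =
        gᵀ * Matrix.fromBlocks (trm ω (hᵀ * A * h)) 0 0 (-trm ω B) * g := by
      rw [← t1 A h, Matrix.transpose_mul, Matrix.fromBlocks_transpose]
      have : Matrix.fromBlocks ((lmm ω h)ᵀ * trm ω A * lmm ω h) 0 0 (-trm ω B) =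
          Matrix.fromBlocks (lmm ω h)ᵀ 0 0 1 * Matrix.fromBlocks (trm ω A) 0 0 (-trm ω B) *
            Matrix.fromBlocks (lmm ω h) 0 0 (1 : Matrix (Fin N × Fin n) (Fin N × Fin n)
              (RatFunc F)) := by
        rw [Matrix.fromBlocks_multiply, Matrix.fromBlocks_multiply]
        simp
      rw [this]
      simp only [Matrix.transpose_zero, Matrix.transpose_one, Matrix.mul_assoc]
    rw [e]
    exact hg2

end Pool.T1
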