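import Pool.Agent.H41.T1.S5

/-!
# T1: DIFK, NUMK
-/

set_option autoImplicit false

namespace Pool.T1

open Pool.HYP

/-- Each sum of opposite entries is at most twice the total. -/
theorem DIFK.pair {n : ℕ} {C : ℤ} {d : Fin n → ℤ} (h : Adm C d) (i : Fin n) :
    d i + d i.rev ≤ 2 * C := by
  obtain ⟨_, h2, h3⟩ := h
  have e : ∑ j, (d j + d j.rev) = 2 * ∑ j, d j := by
    rw [Finset.sum_add_distrib, two_mul]
    congr 1
    exact Equiv.sum_comp Fin.revPerm d
  have l : d i + d i.rev ≤ ∑ j, (d j + d j.rev) :=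
    Finset.single_le_sum (f := fun j => d j + d j.rev) (fun j _ => h2 j) (Finset.mem_univ i)
  omega

/-- Row DIFK. -/
theorem difk : DIFKStmt := by
  intro g C d hd
  refine ⟨?_, ?_⟩
  · intro a b hab
    have := hd.1 (show (⟨(a : ℕ), by omega⟩ : Fin (2 * g + 1)) ≤ ⟨(b : ℕ), by omega⟩ from hab)
    simp only [muK]
    omega
  · intro i
    have h1 := DIFK.pair hd i
    have h2 := hd.2.1 i
    rw [abs_le]
    unfold dd
    split_ifs with h h'
    · have h3 : i ≤ i.rev := by
        rw [Fin.le_def, Fin.val_rev]; omega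
      have h4 := hd.1 h3
      have e0 : (⟨(i : ℕ), by omega⟩ : Fin (2 * g + 1)) = i := rfl
      simp only [muK, e0]
      constructor <;> omega
    · have e : (⟨2 * g - (i : ℕ), by omega⟩ : Fin (2 * g + 1)) = i.rev := by
        apply Fin.ext
        rw [Fin.val_rev]
        show 2 * g - (i : ℕ) = _
        omega
      have h3 : i.rev ≤ i := by
        rw [Fin.le_def, Fin.val_rev]; omega
      have h4 := hd.1 h3
      simp only [muK, e]
      constructor <;> omega
    · have e : i.rev = i := by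
        apply Fin.ext
        rw [Fin.val_rev]
        omega
      rw [e] at h1 h2
      constructor <;> omega

/-- Row NUMK. -/
theorem numk (D : DIFKStmt) : NUMKStmt := by
  intro g C
  refine ⟨(4 * C + 1) ^ (2 * g + 1), fun μ => ?_⟩
  have hs : {d : Fin (2 * g + 1) → ℤ | Adm (C : ℤ) d ∧ muK d = μ} ⊆
      ((Fintype.piFinset fun i => Finset.Icc (dd μ i - 2 * C) (dd μ i + 2 * C) :
        Finset (Fin (2 * g + 1) → ℤ)) : Set (Fin (2 * g + 1) → ℤ)) := by
    rintro d ⟨hd, rfl⟩
    rw [Finset.mem_coe, Fintype.mem_piFinset]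
    intro i
    have := (D g C d hd).2 i
    rw [abs_le] at this
    rw [Finset.mem_Icc]
    constructor <;> omega
  refine ⟨(Finset.finite_toSet _).subset hs, ?_⟩
  refine (Set.ncard_le_ncard hs (Finset.finite_toSet _)).trans ?_
  rw [Set.ncard_coe_finset, Fintype.card_piFinset]
  simp only [Int.card_Icc]
  have e : ∀ i : Fin (2 * g + 1), (dd μ i + 2 * (C : ℤ) + 1 - (dd μ i - 2 * C)).toNat =
      4 * C + 1 := fun i => by omega
  rw [Finset.prod_congr rfl fun i _ => e i]
  simp

end Pool.T1
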