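import Pool.Agent.H58.T1.S1

/-!
# T1: GRB
-/

set_option autoImplicit false

namespace Pool.T1

open Polynomial Matrix Pool.HYP Pool.TOW Pool.AVS IsDedekindDomain

section

variable {R : Type} [CommRing R] {K : Type} [Field K] [Algebra R K]
  {O : ValuationSubring K} {π : K}

theorem GRB.sub {m : ℤ} {a b : R} (ha : a ∈ Lm R O π m) (hb : b ∈ Lm R O π m) :
    a - b ∈ Lm R O π m := by
  show algebraMap R K (a - b) * π ^ m ∈ O
  rw [map_sub, sub_mul]
  exact sub_mem ha hb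

theorem GRB.add {m : ℤ} {a b : R} (ha : a ∈ Lm R O π m) (hb : b ∈ Lm R O π m) :
    a + b ∈ Lm R O π m := by
  show algebraMap R K (a + b) * π ^ m ∈ O
  rw [map_add, add_mul]
  exact add_mem ha hb

theorem GRB.zero {m : ℤ} : (0 : R) ∈ Lm R O π m := by
  show algebraMap R K 0 * π ^ m ∈ O
  rw [map_zero, zero_mul]
  exact O.zero_mem

theorem GRB.top (m : ℤ) : LI R O π ⊤ m = Lm R O π m := by
  ext a
  simp [LI]

/-- A nonempty residue class is a coset. -/
theorem GRB.coset {I : Ideal R} {m : ℤ} {a0 r : R} (ha : a0 ∈ Lm R O π m) (hr : a0 - r ∈ I) :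
    {a ∈ Lm R O π m | a - r ∈ I}.ncard = (LI R O π I m).ncard := by
  rw [← Set.ncard_image_of_injective (LI R O π I m) (add_right_injective a0)]
  congr 1
  ext a
  constructor
  · rintro ⟨h1, h2⟩
    refine ⟨a - a0, ⟨GRB.sub h1 ha, ?_⟩, by simp⟩
    have := I.sub_mem h2 hr
    rwa [sub_sub_sub_cancel_right] at this
  · rintro ⟨b, ⟨hb1, hb2⟩, rfl⟩
    refine ⟨GRB.add ha hb1, ?_⟩
    have := I.add_mem hr hb2
    rwa [show a0 - r + b = a0 + b - r by ring] at this

theorem GRB.fib_le {I : Ideal R} {m : ℤ} (r : R) :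
    {a ∈ Lm R O π m | a - r ∈ I}.ncard ≤ (LI R O π I m).ncard := by
  by_cases h : ∃ a ∈ Lm R O π m, a - r ∈ I
  · obtain ⟨a0, h1, h2⟩ := h
    exact (GRB.coset h1 h2).le
  · have e : {a ∈ Lm R O π m | a - r ∈ I} = ∅ := by
      ext a
      simp only [Set.mem_setOf_eq, Set.mem_empty_iff_false, iff_false]
      intro h'
      exact h ⟨a, h'.1, h'.2⟩
    rw [e, Set.ncard_empty]
    exact Nat.zero_le _

/-- The number of elements is the sum over the residue classes. -/
theorem GRB.sum {I : Ideal R} [Fintype (R ⧸ I)] {m : ℤ} (hf : (Lm R O π m).Finite) :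
    (Lm R O π m).ncard =
      ∑ q : R ⧸ I, {a ∈ Lm R O π m | Ideal.Quotient.mk I a = q}.ncard := by
  classical
  rw [Set.ncard_eq_toFinset_card _ hf,
    Finset.card_eq_sum_card_fiberwise (f := Ideal.Quotient.mk I) (t := Finset.univ)
      (fun x _ => Finset.mem_coe.2 (Finset.mem_univ _))]
  refine Finset.sum_congr rfl fun q _ => ?_
  rw [← Set.ncard_coe_finset]
  congr 1
  ext a
  simp

/-- If the total is maximal, all residue classes are equally large. -/
theorem GRB.equi {I : Ideal R} [Finite (R ⧸ I)] {m : ℤ} (hf : (Lm R O π m).Finite)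
    (h : Nat.card (R ⧸ I) * (LI R O π I m).ncard ≤ (Lm R O π m).ncard) (r : R) :
    {a ∈ Lm R O π m | a - r ∈ I}.ncard = (LI R O π I m).ncard := by
  haveI := Fintype.ofFinite (R ⧸ I)
  have key : ∀ s : R, {a ∈ Lm R O π m | Ideal.Quotient.mk I a = Ideal.Quotient.mk I s} =
      {a ∈ Lm R O π m | a - s ∈ I} := by
    intro s
    ext a
    simp only [Set.mem_setOf_eq, Ideal.Quotient.eq]
  have le : ∀ q ∈ (Finset.univ : Finset (R ⧸ I)),
      {a ∈ Lm R O π m | Ideal.Quotient.mk I a = q}.ncard ≤ (LI R O π I m).ncard := by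
    intro q _
    obtain ⟨s, rfl⟩ := Ideal.Quotient.mk_surjective q
    rw [key]
    exact GRB.fib_le s
  have e := Finset.sum_le_sum le
  rw [← GRB.sum hf, Finset.sum_const, Finset.card_univ, smul_eq_mul,
    ← Nat.card_eq_fintype_card] at e
  have e2 : ∑ q : R ⧸ I, {a ∈ Lm R O π m | Ideal.Quotient.mk I a = q}.ncard =
      ∑ _q : R ⧸ I, (LI R O π I m).ncard := by
    rw [← GRB.sum hf, Finset.sum_const, Finset.card_univ, smul_eq_mul,
      ← Nat.card_eq_fintype_card]
    exact le_antisymm e h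
  have := (Finset.sum_eq_sum_iff_of_le le).1 e2 (Ideal.Quotient.mk I r) (Finset.mem_univ _)
  rw [key] at this
  exact this

/-- If every class has a representative, the total is maximal. -/
theorem GRB.ge {I : Ideal R} [Finite (R ⧸ I)] {m : ℤ} (hf : (Lm R O π m).Finite)
    (h : ∀ q : R ⧸ I, ∃ a ∈ Lm R O π m, Ideal.Quotient.mk I a = q) :
    Nat.card (R ⧸ I) * (LI R O π I m).ncard ≤ (Lm R O π m).ncard := by
  haveI := Fintype.ofFinite (R ⧸ I)
  rw [GRB.sum (I := I) hf, Nat.card_eq_fintype_card, ← smul_eq_mul, ← Finset.card_univ,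
    ← Finset.sum_const]
  refine Finset.sum_le_sum fun q _ => ?_
  obtain ⟨a, ha, rfl⟩ := h q
  have : {b ∈ Lm R O π m | Ideal.Quotient.mk I b = Ideal.Quotient.mk I a} =
      {b ∈ Lm R O π m | b - a ∈ I} := by
    ext b
    simp only [Set.mem_setOf_eq, Ideal.Quotient.eq]
  rw [this, GRB.coset ha (by rw [sub_self]; exact I.zero_mem)]

end

/-- Row GRB. -/
theorem grb (A : GRAStmt) (S : STPStmt) (FU : FULStmt) (FC : FUCStmt) (D : GRDStmt)
    (Cc : GRCStmt) : GRBStmt := by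
  intro R _ _ K _ _ _ O π hG
  obtain ⟨hQ, hfin, hneg, ⟨c, hc⟩, hR⟩ := A R K O π hG
  have hπ := hG.pi_ne
  -- an element with a pole
  obtain ⟨t, s, hs, ht0, ht1, ht2⟩ : ∃ (t : R) (s : ℕ), 1 ≤ s ∧ t ≠ 0 ∧
      algebraMap R K t * π ^ (s : ℤ) ∈ O ∧ (algebraMap R K t * π ^ (s : ℤ))⁻¹ ∈ O := by
    by_contra hcon
    have h0 : ∀ a : R, a ∈ Lm R O π 0 := by
      intro a
      by_cases ha : a = 0
      · rw [ha]
        exact GRB.zero
      · obtain ⟨n, h1, h2, _, h4⟩ := D R K O π hG a ha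
        rcases Nat.eq_zero_or_pos n with hn | hn
        · rw [h4 0, hn]
          exact le_refl _
        · exact absurd ⟨a, n, hn, ha, by rw [zpow_natCast]; exact h1, by
            rw [zpow_natCast]; exact h2⟩ hcon
    have h1 : ∀ m : ℕ, qq O ^ (m + 1) ≤ c * qq O := by
      intro m
      refine (hc m).trans (Nat.mul_le_mul_left _ ?_)
      refine (Set.ncard_le_ncard (t := Lm R O π 0) (fun a _ => h0 a) (hfin 0).1).trans ?_
      refine (hfin 0).2.trans ?_
      simp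
    have h2 := h1 (c * qq O)
    have h3 : c * qq O < qq O ^ (c * qq O) := Nat.lt_pow_self (by omega)
    have h4 : qq O ^ (c * qq O) ≤ qq O ^ (c * qq O + 1) :=
      Nat.pow_le_pow_right (by omega) (Nat.le_succ _)
    omega
  obtain ⟨l, hl⟩ := FC (qq O) c s (by omega) hs
  have hA : ∀ I : Ideal R, I ≠ ⊥ → 0 < Nat.card (R ⧸ I) := by
    intro I hI
    haveI := hG.fin I hI
    exact Nat.card_pos
  have hfull : ∀ I : Ideal R, I ≠ ⊥ → ∀ M : ℕ, Nat.card (R ⧸ I) ≤ qq O ^ (M + 1) →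
      ∀ m : ℕ, M + l ≤ m → Full R O π I (m : ℤ) := by
    intro I hI M hM
    refine hl (fun m => (LI R O π I (m : ℤ)).ncard) (fun m => Full R O π I (m : ℤ)) M
      (Nat.card (R ⧸ I)) (hA I hI) ?_ ?_ ?_ ?_ ?_
    · intro m _
      have h1 := (Cc R K O π hG I m 0 hI).2.2
      have h2 := hc m
      have h3 : qq O ^ m ≤ qq O ^ (m + 1) := Nat.pow_le_pow_right (by omega) (Nat.le_succ _)
      calc qq O ^ m ≤ qq O ^ (m + 1) := h3
        _ ≤ c * (Lm R O π (m : ℤ)).ncard := h2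
        _ ≤ c * (Nat.card (R ⧸ I) * (LI R O π I (m : ℤ)).ncard) := Nat.mul_le_mul_left _ h1
        _ = c * Nat.card (R ⧸ I) * (LI R O π I (m : ℤ)).ncard := (mul_assoc _ _ _).symm
    · intro m hm
      refine (Cc R K O π hG I m 0 hI).2.1 (hM.trans ?_)
      exact Nat.pow_le_pow_right (by omega) (by omega)
    · intro m
      have := (S R K O π hG I ((m + 1 : ℕ) : ℤ)).1
      rwa [show (((m + 1 : ℕ) : ℤ) - 1) = (m : ℤ) by push_cast; ring] at this
    · intro m hm
      have := (S R K O π hG I ((m + 1 : ℕ) : ℤ)).2.2 hm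
      rwa [show (((m + 1 : ℕ) : ℤ) - 1) = (m : ℤ) by push_cast; ring] at this
    · intro m hm
      have := FU R K O π hG I (m : ℤ) (s : ℤ) t ht0 ht1 ht2 hm
      rwa [← Nat.cast_add] at this
  refine ⟨qq O ^ l, fun I m hI hm => ?_⟩
  haveI := hG.fin I hI
  have hlm : l ≤ m := by
    have h1 : qq O ^ l ≤ qq O ^ m :=
      le_trans (by
        have := Nat.mul_le_mul_left (qq O ^ l) (hA I hI)
        simpa using this) hm
    exact (Nat.pow_le_pow_iff_right (by omega)).1 h1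
  have hM : Nat.card (R ⧸ I) ≤ qq O ^ (m - l + 1) := by
    have h1 : qq O ^ l * Nat.card (R ⧸ I) ≤ qq O ^ l * qq O ^ (m - l) := by
      rw [← pow_add, Nat.add_sub_cancel' hlm]
      exact hm
    have h2 := Nat.le_of_mul_le_mul_left h1 (pow_pos (by omega) _)
    exact h2.trans (Nat.pow_le_pow_right (by omega) (Nat.le_succ _))
  have fI : ∀ k : ℕ, Full R O π I ((m + k : ℕ) : ℤ) := fun k =>
    hfull I hI (m - l) hM (m + k) (by omega)
  have fT : ∀ k : ℕ, Full R O π ⊤ ((m + k : ℕ) : ℤ) := fun k =>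
    hfull ⊤ top_ne_bot 0 (by
      rw [Nat.card_eq_one_iff_unique.2 ⟨inferInstance, inferInstance⟩]
      exact Nat.one_le_pow _ _ (by omega)) (m + k) (by omega)
  have sc : ∀ J : Ideal R, (∀ k : ℕ, Full R O π J ((m + k : ℕ) : ℤ)) → ∀ k : ℕ,
      (LI R O π J ((m + k : ℕ) : ℤ)).ncard = qq O ^ k * (LI R O π J (m : ℤ)).ncard := by
    intro J hJ k
    induction k with
    | zero => simp
    | succ k ih =>
      have h1 := (S R K O π hG J ((m + (k + 1) : ℕ) : ℤ)).2.1.1 (hJ (k + 1))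
      rw [show (((m + (k + 1) : ℕ) : ℤ) - 1) = ((m + k : ℕ) : ℤ) by push_cast; ring, ih] at h1
      rw [h1, pow_succ]
      ring
  -- a level which represents all classes
  obtain ⟨k, hk⟩ : ∃ k : ℕ, ∀ q : R ⧸ I, ∃ a ∈ Lm R O π ((m + k : ℕ) : ℤ),
      Ideal.Quotient.mk I a = q := by
    haveI := Fintype.ofFinite (R ⧸ I)
    have h1 : ∀ q : R ⧸ I, ∃ n : ℕ, ∃ a ∈ Lm R O π (n : ℤ), Ideal.Quotient.mk I a = q := by
      intro q
      obtain ⟨a, rfl⟩ := Ideal.Quotient.mk_surjective q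
      obtain ⟨n, hn⟩ := hR a
      exact ⟨n, a, hn, rfl⟩
    choose n hn using h1
    refine ⟨∑ q, n q, fun q => ?_⟩
    obtain ⟨a, ha, e⟩ := hn q
    refine ⟨a, ?_, e⟩
    have hle : n q ≤ m + ∑ q, n q :=
      le_add_left (Finset.single_le_sum (fun _ _ => Nat.zero_le _) (Finset.mem_univ q))
    have hz : ((m + ∑ q, n q : ℕ) : ℤ) = (n q : ℤ) + ((m + ∑ q, n q - n q : ℕ) : ℤ) := by
      rw [← Nat.cast_add, Nat.add_sub_cancel' hle]
    show algebraMap R K a * π ^ ((m + ∑ q, n q : ℕ) : ℤ) ∈ O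
    rw [hz, zpow_add₀ hπ, ← mul_assoc, zpow_natCast π (_ - _)]
    exact O.mul_mem _ _ ha (O.pow_mem hG.pi_mem _)
  have h1 := GRB.ge (hfin ((m + k : ℕ) : ℤ)).1 hk
  have h2 := sc ⊤ fT k
  rw [GRB.top, GRB.top] at h2
  rw [sc I fI k, h2] at h1
  have h3 : Nat.card (R ⧸ I) * (LI R O π I (m : ℤ)).ncard ≤ (Lm R O π (m : ℤ)).ncard := by
    have : qq O ^ k * (Nat.card (R ⧸ I) * (LI R O π I (m : ℤ)).ncard) ≤
        qq O ^ k * (Lm R O π (m : ℤ)).ncard := by
      calc _ = Nat.card (R ⧸ I) * (qq O ^ k * (LI R O π I (m : ℤ)).ncard) := by ring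
        _ ≤ _ := h1
    exact Nat.le_of_mul_le_mul_left this (pow_pos (by omega) _)
  have h4 : Nat.card (R ⧸ I) * (LI R O π I (m : ℤ)).ncard = (Lm R O π (m : ℤ)).ncard :=
    le_antisymm h3 (Cc R K O π hG I m 0 hI).2.2
  have h5 := GRB.equi (hfin (m : ℤ)).1 h3
  refine ⟨fun r x hx => ?_, fun r => by rw [h5 r, ← h4, mul_comm]⟩
  -- the last part
  have fI0 : Full R O π I (m : ℤ) := by simpa using fI 0
  have hN := (S R K O π hG I (m : ℤ)).2.1.1 fI0
  have hpos : 0 < (LI R O π I (m : ℤ)).ncard := by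
    rw [Set.ncard_pos ((hfin (m : ℤ)).1.subset fun a ha => ha.1)]
    exact ⟨0, GRB.zero, I.zero_mem⟩
  obtain ⟨a0, ha0, hr0⟩ : {a ∈ Lm R O π (m : ℤ) | a - r ∈ I}.Nonempty := by
    rw [← h5 r] at hpos
    exact Set.nonempty_of_ncard_ne_zero hpos.ne'
  have ha0' : algebraMap R K a0 * π ^ (m : ℤ) ∈ O := ha0
  obtain ⟨b, ⟨hb1, hb2⟩, hb3⟩ := fI0 (x - algebraMap R K a0 * π ^ (m : ℤ)) (sub_mem hx ha0')
  have hcard : {a ∈ Lm R O π (m : ℤ) | a - r ∈ I ∧
      (algebraMap R K a * π ^ m - x) / π ∈ O}.ncard = (LI R O π I ((m : ℤ) - 1)).ncard := by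
    rw [← Set.ncard_image_of_injective (LI R O π I ((m : ℤ) - 1)) (add_right_injective (a0 + b))]
    congr 1
    have hb3' : (algebraMap R K (a0 + b) * π ^ m - x) / π ∈ O := by
      have e : (algebraMap R K (a0 + b) * π ^ m - x) / π =
          (algebraMap R K b * π ^ (m : ℤ) - (x - algebraMap R K a0 * π ^ (m : ℤ))) / π := by
        rw [zpow_natCast, map_add]
        ring
      rw [e]
      exact hb3
    ext a
    constructor
    · rintro ⟨g1, g2, g3⟩
      refine ⟨a - (a0 + b), ⟨?_, ?_⟩, by simp⟩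
      · show algebraMap R K (a - (a0 + b)) * π ^ ((m : ℤ) - 1) ∈ O
        have e : algebraMap R K (a - (a0 + b)) * π ^ ((m : ℤ) - 1) =
            (algebraMap R K a * π ^ m - x) / π -
              (algebraMap R K (a0 + b) * π ^ m - x) / π := by
          rw [zpow_sub_one₀ hπ, zpow_natCast, map_sub]
          ring
        rw [e]
        exact sub_mem g3 hb3'
      · have := I.sub_mem (I.sub_mem g2 hr0) hb2
        rwa [show a - r - (a0 - r) - b = a - (a0 + b) by ring] at this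
    · rintro ⟨d, ⟨hd1, hd2⟩, rfl⟩
      have hd1' : algebraMap R K d * π ^ ((m : ℤ) - 1) ∈ O := hd1
      have hd3 : d ∈ Lm R O π (m : ℤ) := by
        show algebraMap R K d * π ^ (m : ℤ) ∈ O
        have e : algebraMap R K d * π ^ (m : ℤ) = algebraMap R K d * π ^ ((m : ℤ) - 1) * π := by
          rw [mul_assoc, ← zpow_add_one₀ hπ, sub_add_cancel]
        rw [e]
        exact O.mul_mem _ _ hd1' hG.pi_mem
      refine ⟨GRB.add (GRB.add ha0 hb1) hd3, ?_, ?_⟩
      · have := I.add_mem (I.add_mem hr0 hb2) hd2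
        rwa [show a0 - r + b + d = a0 + b + d - r by ring] at this
      · have e : (algebraMap R K (a0 + b + d) * π ^ m - x) / π =
            (algebraMap R K (a0 + b) * π ^ m - x) / π +
              algebraMap R K d * π ^ ((m : ℤ) - 1) := by
          rw [zpow_sub_one₀ hπ, zpow_natCast, map_add _ (a0 + b) d]
          ring
        show (algebraMap R K (a0 + b + d) * π ^ m - x) / π ∈ O
        rw [e]
        exact add_mem hb3' hd1'
  rw [hcard, ← h4, hN]
  ring

end Pool.T1
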